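import Mathlib.Algebra.Group.Subgroup.Basic
import Mathlib.Data.Real.Basic
import Mathlib.Tactic.Ring
import Mathlib.Tactic.Linarith
import Mathlib.Order.Iterate

/-!
# Two Lefschetz theorems with different centers: the linear algebra
-/

namespace Pool.Agent.TH127.LW

universe u

/-- Groups `V i` of (homologically trivial) cycles of codimension `i` in `M`, the operator `E` of
degree one and the projectors `p j` with the hard Lefschetz theorem for them. -/
structure IsPkg {M : Type u} [AddCommGroup M] (n : ℤ) (V : ℤ → AddSubgroup M) (E : M →+ M)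
    (p : ℤ → M →+ M) : Prop where
  low : ∀ i < 0, ∀ z ∈ V i, z = 0
  high : ∀ i > n, ∀ z ∈ V i, z = 0
  mapE : ∀ (i : ℤ), ∀ z ∈ V i, E z ∈ V (i + 1)
  mapP : ∀ (i j : ℤ), ∀ z ∈ V i, p j z ∈ V i
  idem : ∀ (j : ℤ) (z : M), p j (p j z) = p j z
  fin : ∀ i : ℤ, ∀ z ∈ V i, (∀ j, p j z = 0) → z = 0
  orth : ∀ (a b : ℤ) (z : M), a ≠ b → p a (p b z) = 0
  comm : ∀ (j : ℤ) (z : M), E (p j z) = p (j + 2) (E z)
  inj : ∀ (i j : ℤ) (k : ℕ), j + k = n → ∀ z ∈ V i, p j z = z → E^[k] z = 0 → z = 0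
  surj : ∀ (i j : ℤ) (k : ℕ), j + k = n → ∀ w ∈ V (i + k), p (j + 2 * k) w = w →
    ∃ z ∈ V i, p j z = z ∧ E^[k] z = w

variable {M : Type u} [AddCommGroup M] {n : ℤ} {V : ℤ → AddSubgroup M} {E : M →+ M}
  {p : ℤ → M →+ M}

/-- The arithmetic Lefschetz isomorphisms. -/
def Q1 (n : ℤ) (V : ℤ → AddSubgroup M) (E : M →+ M) : Prop :=
  ∀ (i : ℤ) (k : ℕ), 2 * i + k = n + 1 → (∀ z ∈ V i, E^[k] z = 0 → z = 0) ∧
    ∀ w ∈ V (i + k), ∃ z ∈ V i, E^[k] z = w

/-- The component of weight `j` in codimension `i` vanishes. -/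
def Van (V : ℤ → AddSubgroup M) (p : ℤ → M →+ M) (i j : ℤ) : Prop :=
  ∀ z ∈ V i, p j z = 0

lemma iter_zero (k : ℕ) : E^[k] (0 : M) = 0 := by
  induction k with
  | zero => rfl
  | succ k ih => rw [Function.iterate_succ_apply', ih, map_zero]

lemma iter_sub (k : ℕ) (x y : M) : E^[k] (x - y) = E^[k] x - E^[k] y := by
  induction k with
  | zero => rfl
  | succ k ih => rw [Function.iterate_succ_apply', ih, map_sub, Function.iterate_succ_apply',
      Function.iterate_succ_apply']

namespace IsPkg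

variable (h : IsPkg n V E p)

include h

lemma commIter (k : ℕ) (j : ℤ) (z : M) : E^[k] (p j z) = p (j + 2 * k) (E^[k] z) := by
  induction k with
  | zero => simp
  | succ k ih =>
    rw [Function.iterate_succ_apply', ih, h.comm, Function.iterate_succ_apply']
    congr 2
    push_cast; ring

lemma mapIter (k : ℕ) {i : ℤ} {z : M} (hz : z ∈ V i) : E^[k] z ∈ V (i + k) := by
  induction k with
  | zero => simpa using hz
  | succ k ih =>
    rw [Function.iterate_succ_apply']
    have := h.mapE _ _ ih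
    have e : i + k + 1 = i + ((k + 1 : ℕ) : ℤ) := by push_cast; ring
    rwa [e] at this

lemma coh {i j : ℤ} {k : ℕ} (hk : j + k = n) : Van V p i j ↔ Van V p (i + k) (j + 2 * k) := by
  constructor
  · intro hv w hw
    obtain ⟨z, hz, hz1, hz2⟩ := h.surj i j k hk (p (j + 2 * k) w) (h.mapP _ _ _ hw) (h.idem _ _)
    rw [← hz2, ← hz1, hv z hz, iter_zero]
  · intro hv z hz
    refine h.inj i j k hk _ (h.mapP _ _ _ hz) (h.idem _ _) ?_
    rw [h.commIter]
    exact hv _ (h.mapIter k hz)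

lemma coh' (i j : ℤ) : Van V p i j ↔ Van V p (i + n - j) (2 * n - j) := by
  rcases le_total j n with hj | hj
  · obtain ⟨k, hk⟩ := Int.eq_ofNat_of_zero_le (sub_nonneg.2 hj)
    have e : j + k = n := by omega
    rw [h.coh e]
    have e1 : i + k = i + n - j := by omega
    have e2 : j + 2 * k = 2 * n - j := by omega
    rw [e1, e2]
  · obtain ⟨k, hk⟩ := Int.eq_ofNat_of_zero_le (sub_nonneg.2 hj)
    have e : (2 * n - j) + k = n := by omega
    rw [h.coh (i := i + n - j) e]
    have e1 : i + n - j + k = i := by omega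
    have e2 : 2 * n - j + 2 * k = j := by omega
    rw [e1, e2]

lemma arith (hQ : Q1 n V E) {i j : ℤ} {k : ℕ} (hk : 2 * i + k = n + 1) :
    Van V p i j ↔ Van V p (i + k) (j + 2 * k) := by
  constructor
  · intro hv w hw
    obtain ⟨z, hz, hz2⟩ := (hQ i k hk).2 w hw
    rw [← hz2, ← h.commIter, hv z hz, iter_zero]
  · intro hv z hz
    refine (hQ i k hk).1 _ (h.mapP _ _ _ hz) ?_
    rw [h.commIter]
    exact hv _ (h.mapIter k hz)

lemma arith' (hQ : Q1 n V E) (i j : ℤ) :
    Van V p i j ↔ Van V p (n + 1 - i) (j + 2 * (n + 1 - 2 * i)) := by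
  rcases le_total (2 * i) (n + 1) with hj | hj
  · obtain ⟨k, hk⟩ := Int.eq_ofNat_of_zero_le (sub_nonneg.2 hj)
    have e : 2 * i + k = n + 1 := by omega
    rw [h.arith hQ e]
    have e1 : i + k = n + 1 - i := by omega
    have e2 : j + 2 * k = j + 2 * (n + 1 - 2 * i) := by omega
    rw [e1, e2]
  · obtain ⟨k, hk⟩ := Int.eq_ofNat_of_zero_le (sub_nonneg.2 hj)
    have e : 2 * (n + 1 - i) + k = n + 1 := by omega
    rw [h.arith hQ (i := n + 1 - i) (j := j + 2 * (n + 1 - 2 * i)) e]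
    have e1 : n + 1 - i + k = i := by omega
    have e2 : j + 2 * (n + 1 - 2 * i) + 2 * k = j := by omega
    rw [e1, e2]

lemma step (hQ : Q1 n V E) (i j : ℤ) :
    Van V p i j ↔ Van V p (i + (1 - 2 * i + j)) (j + 2 * (1 - 2 * i + j)) := by
  rw [h.coh', h.arith' hQ]
  have e1 : n + 1 - (i + n - j) = i + (1 - 2 * i + j) := by ring
  have e2 : 2 * n - j + 2 * (n + 1 - 2 * (i + n - j)) = j + 2 * (1 - 2 * i + j) := by ring
  rw [e1, e2]

lemma steps (hQ : Q1 n V E) (i j : ℤ) (m : ℕ) :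
    Van V p i j ↔ Van V p (i + m * (1 - 2 * i + j)) (j + 2 * (m * (1 - 2 * i + j))) := by
  induction m with
  | zero => simp
  | succ m ih =>
    rw [ih, h.step hQ]
    have e1 : i + m * (1 - 2 * i + j) + (1 - 2 * (i + m * (1 - 2 * i + j)) +
        (j + 2 * (m * (1 - 2 * i + j)))) = i + ((m + 1 : ℕ) : ℤ) * (1 - 2 * i + j) := by
      push_cast; ring
    have e2 : j + 2 * (m * (1 - 2 * i + j)) + 2 * (1 - 2 * (i + m * (1 - 2 * i + j)) +
        (j + 2 * (m * (1 - 2 * i + j)))) = j + 2 * (((m + 1 : ℕ) : ℤ) * (1 - 2 * i + j)) := by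
      push_cast; ring
    rw [e1, e2]

/-- The arithmetic Lefschetz isomorphisms force all components of weight `≠ 2 i - 1` to vanish. -/
theorem van_of_Q1 (hQ : Q1 n V E) {i j : ℤ} (hj : j ≠ 2 * i - 1) : Van V p i j := by
  set δ := 1 - 2 * i + j with hδ
  have hδ0 : δ ≠ 0 := by omega
  rw [h.steps hQ i j (i.natAbs + n.natAbs + 1), ← hδ]
  intro z hz
  suffices h0 : z = 0 by rw [h0, map_zero]
  have e : ((i.natAbs + n.natAbs + 1 : ℕ) : ℤ) = |i| + |n| + 1 := by
    push_cast [Int.natCast_natAbs]; ring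
  rw [e] at hz
  have h1 := abs_nonneg i
  have h2 := abs_nonneg n
  have h3 := le_abs_self i
  have h4 := neg_abs_le i
  have h5 := le_abs_self n
  rcases lt_or_gt_of_ne hδ0 with hd | hd
  · exact h.low _ (by nlinarith) z hz
  · exact h.high _ (by nlinarith) z hz

lemma eq_of_van {i j : ℤ} (hv : ∀ a : ℤ, a ≠ j → Van V p i a) {z : M} (hz : z ∈ V i) :
    p j z = z := by
  have h1 := h.fin i (z - p j z) ((V i).sub_mem hz (h.mapP _ _ _ hz)) (fun a => by
    rw [map_sub]
    by_cases ha : a = j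
    · rw [ha, h.idem, sub_self]
    · rw [hv a ha z hz, h.orth _ _ _ ha, sub_zero])
  exact (sub_eq_zero.1 h1).symm

/-- **The arithmetic Lefschetz theorem is equivalent to purity.** -/
theorem Q1_iff : Q1 n V E ↔ ∀ i j : ℤ, j ≠ 2 * i - 1 → Van V p i j := by
  constructor
  · exact fun hQ i j hj => h.van_of_Q1 hQ hj
  · intro hv i k hk
    have e : (2 * i - 1) + k = n := by omega
    refine ⟨fun z hz h0 => h.inj i (2 * i - 1) k e z hz (h.eq_of_van (hv i) hz) h0,
      fun w hw => ?_⟩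
    have h1 : p ((2 * i - 1) + 2 * k) w = w :=
      h.eq_of_van (fun a ha => hv (i + k) a (by omega)) hw
    obtain ⟨z, hz, -, hz2⟩ := h.surj i (2 * i - 1) k e w hw h1
    exact ⟨z, hz, hz2⟩

end IsPkg

/-- The formal properties of the height pairing. -/
structure IsHt (n : ℤ) (V : ℤ → AddSubgroup M) (E : M →+ M) (p : ℤ → M →+ M) (b : M → M → ℝ) :
    Prop where
  add_left : ∀ i : ℤ, ∀ x ∈ V i, ∀ x' ∈ V i, ∀ y ∈ V (n + 1 - i), b (x + x') y = b x y + b x' y
  add_right : ∀ i : ℤ, ∀ x ∈ V i, ∀ y ∈ V (n + 1 - i), ∀ y' ∈ V (n + 1 - i),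
    b x (y + y') = b x y + b x y'
  adjE : ∀ i : ℤ, ∀ x ∈ V i, ∀ y ∈ V (n - i), b (E x) y = b x (E y)
  adjP : ∀ i j : ℤ, ∀ x ∈ V i, ∀ y ∈ V (n + 1 - i), b (p j x) y = b x (p (2 * n - j) y)

/-- The Hodge index statement, for those `x` which satisfy `P i x`. -/
def Q2On (n : ℤ) (V : ℤ → AddSubgroup M) (E : M →+ M) (b : M → M → ℝ) (P : ℤ → M → Prop) : Prop :=
  ∀ (i : ℤ) (k : ℕ), 2 * i + k = n + 1 → ∀ x ∈ V i, P i x → x ≠ 0 → E^[k + 1] x = 0 →
    0 < (-1 : ℝ) ^ i * b x (E^[k] x)

/-- The pairing is nondegenerate. -/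
def Nondeg (n : ℤ) (V : ℤ → AddSubgroup M) (b : M → M → ℝ) : Prop :=
  ∀ i : ℤ, ∀ x ∈ V i, (∀ y ∈ V (n + 1 - i), b x y = 0) → x = 0

variable {b : M → M → ℝ}

lemma IsHt.zero_right (hb : IsHt n V E p b) {i : ℤ} {x : M} (hx : x ∈ V i) : b x 0 = 0 := by
  have := hb.add_right i x hx 0 (V _).zero_mem 0 (V _).zero_mem
  rw [add_zero] at this
  linarith

lemma IsHt.adjIter (h : IsPkg n V E p) (hb : IsHt n V E p b) (k : ℕ) :
    ∀ (i : ℤ), ∀ x ∈ V i, ∀ y ∈ V (n + 1 - i - k), b (E^[k] x) y = b x (E^[k] y) := by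
  induction k with
  | zero => intro i x _ y _; rfl
  | succ k ih =>
    intro i x hx y hy
    have e1 : n + 1 - i - ((k + 1 : ℕ) : ℤ) = n - i - k := by push_cast; ring
    rw [e1] at hy
    have hy' : y ∈ V (n + 1 - (i + 1) - k) := by
      have : n + 1 - (i + 1) - k = n - i - k := by ring
      rwa [this]
    rw [Function.iterate_succ_apply, ih (i + 1) (E x) (h.mapE _ _ hx) y hy',
      Function.iterate_succ_apply']
    apply hb.adjE i x hx
    have := h.mapIter k hy
    have e2 : n - i - k + k = n - i := by ring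
    rwa [e2] at this

/-- The Hodge index statement forces the components of weight `≥ 2 i` to vanish. -/
theorem IsPkg.van_of_Q2 (h : IsPkg n V E p) (hb : IsHt n V E p b)
    (hQ : Q2On n V E b fun _ _ => True) {ν : ℤ} (hν : ν ≤ 0) (m : ℕ) :
    ∀ i : ℤ, i < m → Van V p i (2 * i - ν) := by
  induction m with
  | zero =>
    intro i hi z hz
    rw [h.low i (by simpa using hi) z hz, map_zero]
  | succ m ih =>
    intro i hi
    rcases lt_or_ge n (2 * i - ν) with hj | hj
    · rw [h.coh']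
      have := ih (i + n - (2 * i - ν)) (by push_cast at hi; omega)
      have e : 2 * (i + n - (2 * i - ν)) - ν = 2 * n - (2 * i - ν) := by ring
      rwa [e] at this
    · intro z hz
      obtain ⟨k, hk⟩ := Int.eq_ofNat_of_zero_le (sub_nonneg.2 hj)
      have h1 : Van V p (i + k + 1) (2 * i - ν + 2 * k + 2) := by
        have h2 := ih (i - 1) (by push_cast at hi; omega)
        rw [h.coh'] at h2
        have e1 : i - 1 + n - (2 * (i - 1) - ν) = i + k + 1 := by omega
        have e2 : 2 * n - (2 * (i - 1) - ν) = 2 * i - ν + 2 * k + 2 := by omega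
        rwa [e1, e2] at h2
      set u := p (2 * i - ν) z with hu
      have hu1 : u ∈ V i := h.mapP _ _ _ hz
      have h3 : E^[k + 1] u = 0 := by
        rw [hu, h.commIter]
        have e : 2 * i - ν + 2 * ((k + 1 : ℕ) : ℤ) = 2 * i - ν + 2 * k + 2 := by push_cast; ring
        rw [e]
        apply h1
        have := h.mapIter (k + 1) hz
        have e' : i + ((k + 1 : ℕ) : ℤ) = i + k + 1 := by push_cast; ring
        rwa [e'] at this
      have h4 : ∀ a : ℕ, E^[k + 1 + a] u = 0 := fun a => by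
        rw [add_comm, Function.iterate_add_apply, h3, iter_zero]
      by_contra hne
      obtain ⟨m', hm'⟩ := Int.eq_ofNat_of_zero_le (show 0 ≤ n + 1 - 2 * i by omega)
      obtain ⟨a, ha⟩ : ∃ a : ℕ, m' = k + 1 + a := ⟨m' - (k + 1), by omega⟩
      have h5 := hQ i m' (by omega) u hu1 trivial hne (by rw [ha, add_assoc]; exact h4 (a + 1))
      rw [ha, h4 a, hb.zero_right hu1, mul_zero] at h5
      exact lt_irrefl _ h5

lemma IsPkg.van_of_Q2' (h : IsPkg n V E p) (hb : IsHt n V E p b)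
    (hQ : Q2On n V E b fun _ _ => True) {i j : ℤ} (hj : 2 * i ≤ j) : Van V p i j := by
  have := h.van_of_Q2 hb hQ (ν := 2 * i - j) (by omega) (i.natAbs + 1) i (by omega)
  have e : 2 * i - (2 * i - j) = j := by ring
  rwa [e] at this

/-- If the components of weight `≥ 2 i` vanish, a primitive class is of weight `2 i - 1`. -/
lemma IsPkg.pure_of_prim (h : IsPkg n V E p) (hv : ∀ i j : ℤ, 2 * i ≤ j → Van V p i j) {i : ℤ}
    {k : ℕ} (hk : 2 * i + k = n + 1) {x : M} (hx : x ∈ V i) (h0 : E^[k + 1] x = 0) :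
    p (2 * i - 1) x = x := by
  have h1 := h.fin i (x - p (2 * i - 1) x) ((V i).sub_mem hx (h.mapP _ _ _ hx)) (fun a => by
    rw [map_sub]
    by_cases ha : a = 2 * i - 1
    · rw [ha, h.idem, sub_self]
    · rw [h.orth _ _ _ ha, sub_zero]
      rcases le_or_gt (2 * i) a with ha' | ha'
      · exact hv i a ha' x hx
      · obtain ⟨k', hk'⟩ := Int.eq_ofNat_of_zero_le (show 0 ≤ n - a by omega)
        obtain ⟨c, hc⟩ : ∃ c : ℕ, k' = c + (k + 1) := ⟨k' - (k + 1), by omega⟩
        refine h.inj i a k' (by omega) _ (h.mapP _ _ _ hx) (h.idem _ _) ?_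
        rw [h.commIter, hc, Function.iterate_add_apply, h0, iter_zero, map_zero])
  exact (sub_eq_zero.1 h1).symm

/-- **The Hodge index statement is equivalent to the vanishing of the components of weight `≥ 2 i`
and the Hodge index statement for the component of weight `2 i - 1`.** -/
theorem IsPkg.Q2_iff (h : IsPkg n V E p) (hb : IsHt n V E p b) :
    (Q2On n V E b fun _ _ => True) ↔ (∀ i j : ℤ, 2 * i ≤ j → Van V p i j) ∧
      Q2On n V E b fun i x => p (2 * i - 1) x = x := by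
  constructor
  · intro hQ
    exact ⟨fun i j hj => h.van_of_Q2' hb hQ hj, fun i k hk x hx _ h0 h1 =>
      hQ i k hk x hx trivial h0 h1⟩
  · rintro ⟨hv, hQ⟩ i k hk x hx - h0 h1
    exact hQ i k hk x hx (h.pure_of_prim hv hk hx h1) h0 h1

lemma IsHt.sub_left (hb : IsHt n V E p b) {i : ℤ} {x x' y : M} (hx : x ∈ V i) (hx' : x' ∈ V i)
    (hy : y ∈ V (n + 1 - i)) : b (x - x') y = b x y - b x' y := by
  have := hb.add_left i (x - x') ((V i).sub_mem hx hx') x' hx' y hy
  rw [sub_add_cancel] at this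
  linarith

/-- Under the Hodge index statement the Lefschetz isomorphisms give nondegeneracy below the
middle. -/
theorem IsPkg.nondeg_low (h : IsPkg n V E p) (hb : IsHt n V E p b) (hQ1 : Q1 n V E)
    (hQ : Q2On n V E b fun _ _ => True) (m : ℕ) : ∀ (i : ℤ) (k : ℕ), i < m → 2 * i + k = n + 1 →
      ∀ x ∈ V i, (∀ y ∈ V (n + 1 - i), b x y = 0) → x = 0 := by
  induction m with
  | zero =>
    intro i k hi _ x hx _
    exact h.low i (by simpa using hi) x hx
  | succ m ih =>
    intro i k hi hk x hx hxy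
    have e1 : 2 * (i - 1) + ((k + 2 : ℕ) : ℤ) = n + 1 := by push_cast; omega
    obtain ⟨y, hy, hy'⟩ := (hQ1 (i - 1) (k + 2) e1).2 (E^[k + 1] x) (by
      have := h.mapIter (k + 1) hx
      have e2 : i + ((k + 1 : ℕ) : ℤ) = i - 1 + ((k + 2 : ℕ) : ℤ) := by push_cast; ring
      rwa [e2] at this)
    have hEy : E y ∈ V i := by
      have := h.mapE _ _ hy
      rwa [sub_add_cancel] at this
    have hEk : E^[k + 1] (x - E y) = 0 := by
      rw [iter_sub, ← hy', ← Function.iterate_succ_apply, sub_self]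
    have hx0 : x - E y ∈ V i := (V i).sub_mem hx hEy
    have e3 : n + 1 - i = i + k := by omega
    have hw : E^[k] (x - E y) ∈ V (n + 1 - i) := by
      rw [e3]
      exact h.mapIter k hx0
    have h0 : x - E y = 0 := by
      by_contra hne
      have h1 := hQ i k hk _ hx0 trivial hne hEk
      rw [hb.sub_left hx hEy hw, hxy _ hw, hb.adjE (i - 1) y hy _ (by
        have e4 : n - (i - 1) = n + 1 - i := by ring
        rw [e4]
        exact hw), ← Function.iterate_succ_apply' (f := ⇑E), hEk, hb.zero_right hy, sub_zero,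
        mul_zero] at h1
      exact lt_irrefl _ h1
    have hxE : x = E y := sub_eq_zero.1 h0
    have hy0 : y = 0 := by
      refine ih (i - 1) (k + 2) (by push_cast at hi; omega) e1 y hy (fun w hw => ?_)
      obtain ⟨y', hy1, hy2⟩ := (hQ1 (i - 1) (k + 2) e1).2 w (by
        have e5 : n + 1 - (i - 1) = i - 1 + ((k + 2 : ℕ) : ℤ) := by push_cast; omega
        rwa [e5] at hw)
      have h2 : E^[k + 1] y' ∈ V (n + 1 - i) := by
        have := h.mapIter (k + 1) hy1
        have e6 : i - 1 + ((k + 1 : ℕ) : ℤ) = n + 1 - i := by push_cast; omega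
        rwa [e6] at this
      rw [← hy2, Function.iterate_succ_apply', ← hb.adjE (i - 1) y hy _ (by
        have e4 : n - (i - 1) = n + 1 - i := by ring
        rw [e4]
        exact h2), ← hxE]
      exact hxy _ h2
    rw [hxE, hy0, map_zero]

/-- Under the Hodge index statement the Lefschetz isomorphisms give nondegeneracy. -/
theorem IsPkg.nondeg (h : IsPkg n V E p) (hb : IsHt n V E p b) (hQ1 : Q1 n V E)
    (hQ : Q2On n V E b fun _ _ => True) : Nondeg n V b := by
  intro i x hx hxy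
  rcases le_total (2 * i) (n + 1) with hi | hi
  · obtain ⟨k, hk⟩ := Int.eq_ofNat_of_zero_le (sub_nonneg.2 hi)
    exact h.nondeg_low hb hQ1 hQ (i.natAbs + 1) i k (by omega) (by omega) x hx hxy
  · obtain ⟨k, hk⟩ := Int.eq_ofNat_of_zero_le (sub_nonneg.2 hi)
    have e : 2 * (n + 1 - i) + k = n + 1 := by omega
    have e1 : n + 1 - i + k = i := by omega
    obtain ⟨x', hx1, hx2⟩ := (hQ1 (n + 1 - i) k e).2 x (by rwa [e1])
    have h0 : x' = 0 := by
      refine h.nondeg_low hb hQ1 hQ ((n + 1 - i).natAbs + 1) (n + 1 - i) k (by omega) e x' hx1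
        (fun y hy => ?_)
      obtain ⟨y', hy1, hy2⟩ := (hQ1 (n + 1 - i) k e).2 y (by
        have e2 : n + 1 - (n + 1 - i) = n + 1 - i + k := by omega
        rwa [e2] at hy)
      rw [← hy2, ← hb.adjIter h k (n + 1 - i) x' hx1 y' (by
        have e3 : n + 1 - (n + 1 - i) - k = n + 1 - i := by omega
        rwa [e3]), hx2]
      exact hxy y' hy1
    rw [← hx2, h0, iter_zero]

/-- Under the Hodge index statement nondegeneracy gives the Lefschetz isomorphisms. -/
theorem IsPkg.Q1_of_nondeg (h : IsPkg n V E p) (hb : IsHt n V E p b)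
    (hQ : Q2On n V E b fun _ _ => True) (hN : Nondeg n V b) : Q1 n V E := by
  rw [h.Q1_iff]
  intro i j hj
  rcases le_or_gt (2 * i) j with hj' | hj'
  · exact h.van_of_Q2' hb hQ hj'
  · intro x hx
    refine hN i _ (h.mapP _ _ _ hx) (fun y hy => ?_)
    rw [hb.adjP i j x hx y hy, h.van_of_Q2' hb hQ (i := n + 1 - i) (j := 2 * n - j) (by omega) y hy]
    exact hb.zero_right hx

/-- **Under the Hodge index statement, the Lefschetz isomorphisms are equivalent to the
nondegeneracy of the pairing.** -/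
theorem IsPkg.Q1_iff_nondeg (h : IsPkg n V E p) (hb : IsHt n V E p b)
    (hQ : Q2On n V E b fun _ _ => True) : Q1 n V E ↔ Nondeg n V b :=
  ⟨fun h1 => h.nondeg hb h1 hQ, fun h1 => h.Q1_of_nondeg hb hQ h1⟩

end Pool.Agent.TH127.LW
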