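import Pool.Agent.TH133.Defs
import Mathlib.Data.Real.Basic

/-!
# Height pairings on varieties with a Lefschetz-Chow-Kunneth decomposition: definitions
-/

open CategoryTheory AlgebraicGeometry

universe u v w

namespace Pool.Agent.TH127.LW

open Pool.Agent.H914 Pool.Agent.H914.VarClass Pool.Agent.H914.VarClass.Obj Pool.Agent.W492.BB
  Pool.Agent.W550.Corr Pool.Agent.TH133

variable {k : Type u} [Field k] {𝒱 : VarClass k} {C : TheoryData.{u, v, 0} 𝒱 ℚ}
  {K : Type w} [Field K] (H : WeilTheoryData.{u, v, w} C K) (X : 𝒱.Obj)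

/-- The class `z` lies in `Ch^i(X)^0`: it has codimension `i` and is homologically trivial. -/
def HomCycle (i : ℕ) (z : C.A X) : Prop := C.Deg i z ∧ H.cl z = 0

/-- `π` is a Lefschetz-Chow-Kunneth decomposition of `X` with respect to the divisor class `ℓ`:

* `π` is a Chow-Kunneth decomposition;
* `ℓ` has degree one, and `ℓ · (π_j)_* z = (π_{j+2})_* (ℓ · z)`;
* for `j + k = dim X` the multiplication with `ℓ ^ k` is a bijection from `(π_j)_* CH^i(X)` onto
  `(π_{j+2k})_* CH^{i+k}(X)`, for all integers `i`;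
* for `j + k = dim X` the multiplication with `ℓ ^ k` is injective on `H^j(X)`. -/
structure IsLefschetzCK (ℓ : C.A X) (π : ℕ → C.A (X.prod X)) : Prop where
  ck : IsCK H X π
  deg_one : C.Deg 1 ℓ
  comm : ∀ (j : ℕ) (z : C.A X), ℓ * C.act (π j) z = C.act (π (j + 2)) (ℓ * z)
  chow : ∀ (i : ℤ) (j k : ℕ), j + k = X.dim → ∀ w : C.A X, C.Deg (i + k) w →
    C.act (π (j + 2 * k)) w = w → ∃! z : C.A X, C.Deg i z ∧ C.act (π j) z = z ∧ ℓ ^ k * z = w
  coh : ∀ j k : ℕ, j + k = X.dim → ∀ a : H.A X, H.Deg j a → H.cl (ℓ ^ k) * a = 0 → a = 0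

/-- Q1 for `X` and `ℓ`: for `2 i + k = dim X + 1` the multiplication with `ℓ ^ k` is a bijection
from `Ch^i(X)^0` onto `Ch^{i+k}(X)^0`. -/
def ArithmeticLefschetz (ℓ : C.A X) : Prop :=
  ∀ i k : ℕ, 2 * i + k = X.dim + 1 → ∀ w : C.A X, HomCycle H X (i + k) w →
    ∃! z : C.A X, HomCycle H X i z ∧ ℓ ^ k * z = w

/-- The formal properties of the height pairing of `X` used here: for `i + j = dim X + 1` it is
biadditive on `Ch^i(X)^0 × Ch^j(X)^0`, the multiplication with `ℓ` is self-adjoint, and the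
transpose of a correspondence `Γ` of degree zero is adjoint to `Γ`. -/
structure IsHeightPairing (ℓ : C.A X) (b : C.A X → C.A X → ℝ) : Prop where
  add_left : ∀ i j : ℕ, i + j = X.dim + 1 → ∀ x x' y : C.A X, HomCycle H X i x →
    HomCycle H X i x' → HomCycle H X j y → b (x + x') y = b x y + b x' y
  add_right : ∀ i j : ℕ, i + j = X.dim + 1 → ∀ x y y' : C.A X, HomCycle H X i x →
    HomCycle H X j y → HomCycle H X j y' → b x (y + y') = b x y + b x y'
  adj_mul : ∀ i j : ℕ, i + j = X.dim → ∀ x y : C.A X, HomCycle H X i x → HomCycle H X j y →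
    b (ℓ * x) y = b x (ℓ * y)
  adj_act : ∀ i j : ℕ, i + j = X.dim + 1 → ∀ x y : C.A X, HomCycle H X i x → HomCycle H X j y →
    ∀ Γ : C.A (X.prod X), C.Deg X.dim Γ → b (C.act Γ x) y = b x (C.act (tp C Γ) y)

/-- Q2 for `X`, `ℓ` and the pairing `b`: `(-1)^i b(x, ℓ^k x) > 0` for `2 i + k = dim X + 1` and
nonzero `x` in `Ch^i(X)^0` with `ℓ^(k+1) x = 0`. -/
def HodgeIndex (ℓ : C.A X) (b : C.A X → C.A X → ℝ) : Prop :=
  ∀ i k : ℕ, 2 * i + k = X.dim + 1 → ∀ x : C.A X, HomCycle H X i x → x ≠ 0 →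
    ℓ ^ (k + 1) * x = 0 → 0 < (-1 : ℝ) ^ i * b x (ℓ ^ k * x)

/-- Q2 for those `x` only which have weight `2 i - 1`, that is `(π_{2i-1})_* x = x`. -/
def PureHodgeIndex (ℓ : C.A X) (π : ℕ → C.A (X.prod X)) (b : C.A X → C.A X → ℝ) : Prop :=
  ∀ i k : ℕ, 2 * i + k = X.dim + 1 → ∀ x : C.A X, HomCycle H X i x → x ≠ 0 →
    C.act (π (2 * i - 1)) x = x → ℓ ^ (k + 1) * x = 0 → 0 < (-1 : ℝ) ^ i * b x (ℓ ^ k * x)

/-- The pairing `Ch^i(X)^0 × Ch^j(X)^0 → ℝ`, `i + j = dim X + 1`, has no left kernel. -/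
def IsNondegenerate (b : C.A X → C.A X → ℝ) : Prop :=
  ∀ i j : ℕ, i + j = X.dim + 1 → ∀ x : C.A X, HomCycle H X i x →
    (∀ y : C.A X, HomCycle H X j y → b x y = 0) → x = 0

end Pool.Agent.TH127.LW
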