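import Pool.Agent.TH133.Base
import Pool.Agent.TH127.LW.Abs
import Pool.Agent.TH127.LW.Defs

/-!
# Height pairings on varieties with a Lefschetz-Chow-Kunneth decomposition
-/

open CategoryTheory AlgebraicGeometry

universe u v w

namespace Pool.Agent.TH127.LW

open Pool.Agent.H914 Pool.Agent.H914.VarClass Pool.Agent.H914.VarClass.Obj Pool.Agent.W492.BB
  Pool.Agent.W550.Corr Pool.Agent.TH133

set_option linter.unusedSectionVars false

variable {k : Type u} [Field k] {𝒱 : VarClass k} {C : TheoryData.{u, v, 0} 𝒱 ℚ}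
  [hC : IsChowProj C] {K : Type w} [Field K]
  {H : WeilTheoryData.{u, v, w} C K} [hH : IsWeilProj H] {X : 𝒱.Obj}

/-- The group of homologically trivial classes of codimension `i`. -/
def homGr (H : WeilTheoryData.{u, v, w} C K) (X : 𝒱.Obj) (i : ℤ) : AddSubgroup (C.A X) where
  carrier := {z | C.Deg i z ∧ H.cl z = 0}
  zero_mem' := ⟨Submodule.zero_mem _, map_zero _⟩
  add_mem' := fun ha hb => ⟨Submodule.add_mem _ ha.1 hb.1, by rw [map_add, ha.2, hb.2, add_zero]⟩
  neg_mem' := fun ha => ⟨Submodule.neg_mem _ ha.1, by rw [map_neg, ha.2, neg_zero]⟩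

lemma mem_homGr {i : ℤ} {z : C.A X} : z ∈ homGr H X i ↔ C.Deg i z ∧ H.cl z = 0 := Iff.rfl

/-- The projector `p j`, zero for negative `j`. -/
noncomputable def pj (C : TheoryData.{u, v, 0} 𝒱 ℚ) {X : 𝒱.Obj} (π : ℕ → C.A (X.prod X)) (j : ℤ) :
    C.A X →+ C.A X := if 0 ≤ j then (C.actL (π j.toNat)).toAddMonoidHom else 0

lemma pj_nat (π : ℕ → C.A (X.prod X)) (j : ℕ) (z : C.A X) : pj C π j z = C.act (π j) z := by
  unfold pj
  rw [if_pos (Int.natCast_nonneg j), Int.toNat_natCast]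
  rfl

lemma pj_neg (π : ℕ → C.A (X.prod X)) {j : ℤ} (hj : j < 0) (z : C.A X) : pj C π j z = 0 := by
  unfold pj
  rw [if_neg (by omega)]
  rfl

lemma mulLeft_eq (ℓ z : C.A X) : AddMonoidHom.mulLeft ℓ z = ℓ * z := rfl

lemma iterate_mul (ℓ z : C.A X) (m : ℕ) : (AddMonoidHom.mulLeft ℓ)^[m] z = ℓ ^ m * z := by
  induction m with
  | zero => rw [pow_zero, one_mul]; rfl
  | succ m ih =>
    rw [Function.iterate_succ_apply', ih, mulLeft_eq, pow_succ', mul_assoc]

include hC hH

lemma sum_act {π : ℕ → C.A (X.prod X)} (h : IsCK H X π) (z : C.A X) :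
    z = ∑ j ∈ Finset.range (2 * X.dim + 1), C.act (π j) z := by
  rw [← act_sum, h.sum, act_dg]

lemma act_act {π : ℕ → C.A (X.prod X)} (h : IsCK H X π) (a b : ℕ) (z : C.A X) (hab : a ≠ b) :
    C.act (π a) (C.act (π b) z) = 0 := by
  rw [← C.act_comp, h.orth _ _ hab.symm, TheoryData.act_zero]

lemma low_weights {ℓ : C.A X} {π : ℕ → C.A (X.prod X)} (h : IsLefschetzCK H X ℓ π) {j : ℕ}
    (hj : j < 2) (z : C.A X) : C.act (π j) (ℓ * z) = 0 := by
  conv_lhs => rw [sum_act h.ck z, Finset.mul_sum]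
  rw [act_map_sum]
  apply Finset.sum_eq_zero
  intro a _
  rw [h.comm, act_act h.ck _ _ _ (by omega)]

theorem isPkg {ℓ : C.A X} {π : ℕ → C.A (X.prod X)} (h : IsLefschetzCK H X ℓ π) :
    IsPkg (X.dim : ℤ) (homGr H X) (AddMonoidHom.mulLeft ℓ) (pj C π) where
  low i hi z hz := by
    have h1 : z ∈ C.gr X i := hz.1
    rw [C.gr_neg X i hi] at h1
    exact (Submodule.mem_bot _).1 h1
  high i hi z hz := hC.gr_top X i z hz.1 hi
  mapE i z hz := by
    refine ⟨?_, ?_⟩
    · have := C.mul_mem h.deg_one hz.1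
      rw [add_comm] at this
      exact this
    · rw [mulLeft_eq, map_mul, hz.2, mul_zero]
  mapP i j z hz := by
    rcases lt_or_ge j 0 with hj | hj
    · rw [pj_neg π hj]
      exact AddSubgroup.zero_mem _
    · obtain ⟨a, rfl⟩ := Int.eq_ofNat_of_zero_le hj
      rw [pj_nat]
      refine ⟨act_mem0 C (h.ck.deg a) hz.1, ?_⟩
      rw [cl_act H, hz.2, TheoryData.act_map_zero]
  idem j z := by
    rcases lt_or_ge j 0 with hj | hj
    · rw [pj_neg π hj, pj_neg π hj]
    · obtain ⟨a, rfl⟩ := Int.eq_ofNat_of_zero_le hj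
      rw [pj_nat, pj_nat, ← C.act_comp, h.ck.idem]
  fin i z _ hz' := by
    have h1 := sum_act h.ck z
    rw [Finset.sum_eq_zero (fun j _ => by rw [← pj_nat π j z]; exact hz' j)] at h1
    exact h1
  orth a b z hab := by
    rcases lt_or_ge a 0 with ha | ha
    · rw [pj_neg π ha]
    rcases lt_or_ge b 0 with hb | hb
    · rw [pj_neg π hb, map_zero]
    obtain ⟨a', rfl⟩ := Int.eq_ofNat_of_zero_le ha
    obtain ⟨b', rfl⟩ := Int.eq_ofNat_of_zero_le hb
    rw [pj_nat, pj_nat, act_act h.ck _ _ _ (by omega)]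
  comm j z := by
    rcases lt_or_ge j 0 with hj | hj
    · rw [pj_neg π hj, map_zero]
      symm
      rcases lt_or_ge (j + 2) 0 with hj' | hj'
      · rw [pj_neg π hj']
      · obtain ⟨a, ha⟩ := Int.eq_ofNat_of_zero_le hj'
        have ha' : j + 2 = (a : ℤ) := ha
        rw [ha', pj_nat, mulLeft_eq, low_weights h (by omega)]
    · obtain ⟨a, rfl⟩ := Int.eq_ofNat_of_zero_le hj
      have e : ((a : ℤ) + 2) = ((a + 2 : ℕ) : ℤ) := by push_cast; ring
      rw [pj_nat, e, pj_nat, mulLeft_eq, mulLeft_eq, h.comm]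
  inj i j m hm z hz hz1 hz2 := by
    rcases lt_or_ge j 0 with hj | hj
    · rw [pj_neg π hj] at hz1
      exact hz1.symm
    obtain ⟨a, rfl⟩ := Int.eq_ofNat_of_zero_le hj
    rw [pj_nat] at hz1
    rw [iterate_mul] at hz2
    obtain ⟨y, -, hy⟩ := h.chow i a m (by exact_mod_cast hm) 0 (Submodule.zero_mem _)
      (TheoryData.act_map_zero _ _)
    rw [hy z ⟨hz.1, hz1, hz2⟩]
    exact (hy 0 ⟨Submodule.zero_mem _, TheoryData.act_map_zero _ _, mul_zero _⟩).symm
  surj i j m hm y hy hy1 := by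
    rcases lt_or_ge j 0 with hj | hj
    · have h0 : y = 0 := by
        obtain ⟨a, ha⟩ := Int.eq_ofNat_of_zero_le (show 0 ≤ j + 2 * m by omega)
        have ha' : j + 2 * m = (a : ℤ) := ha
        rw [ha', pj_nat, h.ck.out a (by omega), TheoryData.act_zero] at hy1
        exact hy1.symm
      exact ⟨0, AddSubgroup.zero_mem _, map_zero _, by rw [h0, iter_zero]⟩
    obtain ⟨a, rfl⟩ := Int.eq_ofNat_of_zero_le hj
    have e : (a : ℤ) + 2 * m = ((a + 2 * m : ℕ) : ℤ) := by push_cast; ring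
    rw [e, pj_nat] at hy1
    obtain ⟨z, ⟨hz, hz1, hz2⟩, -⟩ := h.chow i a m (by exact_mod_cast hm) y hy.1 hy1
    refine ⟨z, ⟨hz, ?_⟩, by rw [pj_nat, hz1], by rw [iterate_mul, hz2]⟩
    have h1 := H.cl_mem hz
    by_cases ha : (a : ℤ) = 2 * i
    · rw [← ha] at h1
      refine h.coh a m (by exact_mod_cast hm) _ h1 ?_
      rw [← map_mul, hz2, hy.2]
    · rw [← hz1, cl_act H]
      exact h.ck.act_ne a (2 * i) _ (by omega) h1

lemma homGr_neg {i : ℤ} (hi : i < 0) {z : C.A X} (hz : z ∈ homGr H X i) : z = 0 := by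
  have h1 : z ∈ C.gr X i := hz.1
  rw [C.gr_neg X i hi] at h1
  exact (Submodule.mem_bot _).1 h1

lemma homGr_top {i : ℤ} (hi : X.dim < i) {z : C.A X} (hz : z ∈ homGr H X i) : z = 0 :=
  hC.gr_top X i z hz.1 hi

lemma homGr_nat {i : ℕ} {z : C.A X} : z ∈ homGr H X i ↔ HomCycle H X i z := Iff.rfl

lemma homCycle_of {m : ℤ} {i : ℕ} (e : m = i) {z : C.A X} (hz : z ∈ homGr H X m) :
    HomCycle H X i z := by
  rw [e] at hz
  exact hz

/-- There are no homologically trivial classes of codimension zero. -/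
lemma homCycle_codim_zero {x : C.A X} (hx : HomCycle H X 0 x) : x = 0 := by
  obtain ⟨q, hq⟩ := hC.gr_zero X x (by exact_mod_cast hx.1)
  by_cases hq0 : q = 0
  · rw [hq, hq0, zero_smul]
  · exfalso
    have h5 : (1 : C.A X) = (q⁻¹ • (1 : C.A X)) * (q • (1 : C.A X)) := by
      rw [smul_mul_smul_comm, inv_mul_cancel₀ hq0, one_smul, one_mul]
    have h6 : (1 : H.A X) = 0 := by
      rw [← map_one H.cl, h5, map_mul, ← hq, hx.2, mul_zero]
    exact hH.one_ne_zero X h6

lemma homCycle_zero (i : ℕ) : HomCycle H X i (0 : C.A X) := ⟨Submodule.zero_mem _, map_zero _⟩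

lemma b_zero_left {ℓ : C.A X} {b : C.A X → C.A X → ℝ} (hb : IsHeightPairing H X ℓ b) {i j : ℕ}
    (hij : i + j = X.dim + 1) {y : C.A X} (hy : HomCycle H X j y) : b 0 y = 0 := by
  have := hb.add_left i j hij 0 0 y (homCycle_zero i) (homCycle_zero i) hy
  rw [add_zero] at this
  linarith

lemma b_zero_right {ℓ : C.A X} {b : C.A X → C.A X → ℝ} (hb : IsHeightPairing H X ℓ b) {i j : ℕ}
    (hij : i + j = X.dim + 1) {x : C.A X} (hx : HomCycle H X i x) : b x 0 = 0 := by
  have := hb.add_right i j hij x 0 0 hx (homCycle_zero j) (homCycle_zero j)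
  rw [add_zero] at this
  linarith

lemma out_of_range {i m : ℤ} (hm : i + m = X.dim + 1) (hi : i < 0 ∨ X.dim + 1 < i) {x y : C.A X}
    (hx : x ∈ homGr H X i) (hy : y ∈ homGr H X m) : x = 0 ∧ y = 0 := by
  rcases hi with hi | hi
  · exact ⟨homGr_neg hi hx, homGr_top (by omega) hy⟩
  · exact ⟨homGr_top (by omega) hx, homGr_neg (by omega) hy⟩

theorem isHt {ℓ : C.A X} {π : ℕ → C.A (X.prod X)} (h : IsLefschetzCK H X ℓ π)
    (hd : IsSelfDual C π) {b : C.A X → C.A X → ℝ} (hb : IsHeightPairing H X ℓ b) :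
    IsHt (X.dim : ℤ) (homGr H X) (AddMonoidHom.mulLeft ℓ) (pj C π) b := by
  have b00 : b 0 0 = 0 := b_zero_left hb (i := 0) (j := X.dim + 1) (by omega) (homCycle_zero _)
  refine ⟨?_, ?_, ?_, ?_⟩
  · intro i x hx x' hx' y hy
    by_cases hi : i < 0 ∨ (X.dim : ℤ) + 1 < i
    · obtain ⟨rfl, rfl⟩ := out_of_range (by ring) hi hx hy
      obtain ⟨rfl, -⟩ := out_of_range (by ring) hi hx' hy
      rw [add_zero, b00, add_zero]
    · obtain ⟨a, rfl⟩ := Int.eq_ofNat_of_zero_le (show 0 ≤ i by omega)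
      obtain ⟨c, hc⟩ := Int.eq_ofNat_of_zero_le (show 0 ≤ (X.dim : ℤ) + 1 - (a : ℤ) by omega)
      exact hb.add_left a c (by omega) x x' y hx hx' (homCycle_of hc hy)
  · intro i x hx y hy y' hy'
    by_cases hi : i < 0 ∨ (X.dim : ℤ) + 1 < i
    · obtain ⟨rfl, rfl⟩ := out_of_range (by ring) hi hx hy
      obtain ⟨-, rfl⟩ := out_of_range (by ring) hi hx hy'
      rw [add_zero, b00, add_zero]
    · obtain ⟨a, rfl⟩ := Int.eq_ofNat_of_zero_le (show 0 ≤ i by omega)
      obtain ⟨c, hc⟩ := Int.eq_ofNat_of_zero_le (show 0 ≤ (X.dim : ℤ) + 1 - (a : ℤ) by omega)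
      exact hb.add_right a c (by omega) x y y' hx (homCycle_of hc hy) (homCycle_of hc hy')
  · intro i x hx y hy
    rw [mulLeft_eq, mulLeft_eq]
    by_cases hi : i < 0 ∨ (X.dim : ℤ) < i
    · have h0 : x = 0 ∧ y = 0 := by
        rcases hi with hi | hi
        · exact ⟨homGr_neg hi hx, homGr_top (by omega) hy⟩
        · exact ⟨homGr_top (by omega) hx, homGr_neg (by omega) hy⟩
      rw [h0.1, h0.2, mul_zero]
    · obtain ⟨a, rfl⟩ := Int.eq_ofNat_of_zero_le (show 0 ≤ i by omega)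
      obtain ⟨c, hc⟩ := Int.eq_ofNat_of_zero_le (show 0 ≤ (X.dim : ℤ) - (a : ℤ) by omega)
      exact hb.adj_mul a c (by omega) x y hx (homCycle_of hc hy)
  · intro i j x hx y hy
    by_cases hi : i < 0 ∨ (X.dim : ℤ) + 1 < i
    · obtain ⟨rfl, rfl⟩ := out_of_range (by ring) hi hx hy
      rw [map_zero, map_zero]
    · obtain ⟨a, rfl⟩ := Int.eq_ofNat_of_zero_le (show 0 ≤ i by omega)
      obtain ⟨c, hc⟩ := Int.eq_ofNat_of_zero_le (show 0 ≤ (X.dim : ℤ) + 1 - (a : ℤ) by omega)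
      have hy' := homCycle_of hc hy
      have hac : a + c = X.dim + 1 := by omega
      by_cases hj : j < 0 ∨ 2 * (X.dim : ℤ) < j
      · have h1 : pj C π j x = 0 := by
          rcases hj with hj | hj
          · exact pj_neg π hj x
          · obtain ⟨j', rfl⟩ := Int.eq_ofNat_of_zero_le (show 0 ≤ j by omega)
            rw [pj_nat, h.ck.out j' (by omega), TheoryData.act_zero]
        have h2 : pj C π (2 * X.dim - j) y = 0 := by
          rcases hj with hj | hj
          · obtain ⟨j', hj'⟩ := Int.eq_ofNat_of_zero_le (show 0 ≤ 2 * (X.dim : ℤ) - j by omega)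
            have hj2 : 2 * (X.dim : ℤ) - j = (j' : ℤ) := hj'
            rw [hj2, pj_nat, h.ck.out j' (by omega), TheoryData.act_zero]
          · exact pj_neg π (by omega) y
        rw [h1, h2, b_zero_left hb hac hy', b_zero_right hb hac hx]
      · obtain ⟨j', rfl⟩ := Int.eq_ofNat_of_zero_le (show 0 ≤ j by omega)
        have e : 2 * (X.dim : ℤ) - (j' : ℤ) = ((2 * X.dim - j' : ℕ) : ℤ) := by omega
        rw [pj_nat, e, pj_nat, ← hd j' (by omega)]
        exact hb.adj_act a c hac x y hx hy' _ (h.ck.deg j')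

theorem Q1_iff_AL {ℓ : C.A X} :
    Q1 (X.dim : ℤ) (homGr H X) (AddMonoidHom.mulLeft ℓ) ↔ ArithmeticLefschetz H X ℓ := by
  constructor
  · intro hQ i m hm y hy
    obtain ⟨h1, h2⟩ := hQ i m (by exact_mod_cast hm)
    obtain ⟨z, hz, hz'⟩ := h2 y (by
      have e : (i : ℤ) + m = ((i + m : ℕ) : ℤ) := by push_cast; ring
      rw [e]; exact hy)
    rw [iterate_mul] at hz'
    refine ⟨z, ⟨hz, hz'⟩, fun z' h' => ?_⟩
    have := h1 (z' - z) (AddSubgroup.sub_mem _ h'.1 hz)
      (by rw [iterate_mul, mul_sub, h'.2, hz', sub_self])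
    exact sub_eq_zero.1 this
  · intro hA i m hm
    rcases lt_or_ge i 0 with hi | hi
    · exact ⟨fun z hz _ => homGr_neg hi hz, fun y hy => ⟨0, AddSubgroup.zero_mem _, by
        rw [iter_zero, homGr_top (by omega) hy]⟩⟩
    · obtain ⟨a, rfl⟩ := Int.eq_ofNat_of_zero_le hi
      constructor
      · intro z hz h0
        rw [iterate_mul] at h0
        obtain ⟨z', -, h'⟩ := hA a m (by exact_mod_cast hm) 0 (homCycle_zero _)
        rw [h' z ⟨hz, h0⟩]
        exact (h' 0 ⟨homCycle_zero _, mul_zero _⟩).symm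
      · intro y hy
        obtain ⟨z, ⟨hz, hz'⟩, -⟩ := hA a m (by exact_mod_cast hm) y
          (homCycle_of (by push_cast; ring) hy)
        exact ⟨z, hz, by rw [iterate_mul, hz']⟩

/-- The vanishing of components, over the integers and over the natural numbers. -/
lemma van_iff {π : ℕ → C.A (X.prod X)} (P : ℤ → ℤ → Prop) :
    (∀ i j : ℤ, P i j → Van (homGr H X) (pj C π) i j) ↔ ∀ i j : ℕ, P i j →
      ∀ z : C.A X, HomCycle H X i z → C.act (π j) z = 0 := by
  constructor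
  · intro h i j hij z hz
    rw [← pj_nat π j z]
    exact h i j hij z hz
  · intro h i j hij z hz
    rcases lt_or_ge i 0 with hi | hi
    · rw [homGr_neg hi hz, map_zero]
    rcases lt_or_ge j 0 with hj | hj
    · exact pj_neg π hj z
    obtain ⟨a, rfl⟩ := Int.eq_ofNat_of_zero_le hi
    obtain ⟨c, rfl⟩ := Int.eq_ofNat_of_zero_le hj
    rw [pj_nat]
    exact h a c hij z hz

lemma Q2_iff_HI {ℓ : C.A X} {b : C.A X → C.A X → ℝ} (P : ℤ → C.A X → Prop) :
    Q2On (X.dim : ℤ) (homGr H X) (AddMonoidHom.mulLeft ℓ) b P ↔ ∀ i k : ℕ,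
      2 * i + k = X.dim + 1 → ∀ x : C.A X, HomCycle H X i x → x ≠ 0 → P i x →
        ℓ ^ (k + 1) * x = 0 → 0 < (-1 : ℝ) ^ i * b x (ℓ ^ k * x) := by
  constructor
  · intro h i m hm x hx hx0 hP hl
    have := h i m (by exact_mod_cast hm) x hx hP hx0 (by rw [iterate_mul]; exact hl)
    rw [iterate_mul, zpow_natCast] at this
    exact this
  · intro h i m hm x hx hP hx0 hl
    rcases lt_or_ge i 0 with hi | hi
    · exact absurd (homGr_neg hi hx) hx0
    obtain ⟨a, rfl⟩ := Int.eq_ofNat_of_zero_le hi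
    rw [iterate_mul] at hl ⊢
    rw [zpow_natCast]
    exact h a m (by exact_mod_cast hm) x hx hx0 hP hl

lemma nondeg_iff {b : C.A X → C.A X → ℝ} :
    Nondeg (X.dim : ℤ) (homGr H X) b ↔ IsNondegenerate H X b := by
  constructor
  · intro h i j hij x hx hy
    refine h i x hx (fun y hy' => hy y (homCycle_of (by omega) hy'))
  · intro h i x hx hy
    rcases lt_or_ge i 0 with hi | hi
    · exact homGr_neg hi hx
    rcases lt_or_ge (X.dim : ℤ) i with hi' | hi'
    · exact homGr_top hi' hx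
    obtain ⟨a, rfl⟩ := Int.eq_ofNat_of_zero_le hi
    obtain ⟨c, hc⟩ := Int.eq_ofNat_of_zero_le (show 0 ≤ (X.dim : ℤ) + 1 - (a : ℤ) by omega)
    refine h a c (by omega) x hx (fun y hy' => hy y ?_)
    have hc' : (X.dim : ℤ) + 1 - (a : ℤ) = (c : ℤ) := hc
    rw [hc']
    exact hy'

/-- **Beilinson's conjectures for varieties with a Lefschetz-Chow-Kunneth decomposition.** -/
theorem main {ℓ : C.A X} {π : ℕ → C.A (X.prod X)} (h : IsLefschetzCK H X ℓ π) :
    (ArithmeticLefschetz H X ℓ ↔ ∀ i j : ℕ, j + 1 ≠ 2 * i → ∀ z : C.A X, HomCycle H X i z →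
      C.act (π j) z = 0) ∧
    ∀ (_ : IsSelfDual C π) (b : C.A X → C.A X → ℝ) (_ : IsHeightPairing H X ℓ b),
      (HodgeIndex H X ℓ b ↔ (∀ i j : ℕ, 2 * i ≤ j → ∀ z : C.A X, HomCycle H X i z →
        C.act (π j) z = 0) ∧ PureHodgeIndex H X ℓ π b) ∧
      (HodgeIndex H X ℓ b → (ArithmeticLefschetz H X ℓ ↔ IsNondegenerate H X b)) := by
  refine ⟨?_, fun hd b hb => ?_⟩
  · rw [← Q1_iff_AL, (isPkg h).Q1_iff, van_iff (fun i j => j ≠ 2 * i - 1)]
    constructor
    · exact fun h' i j hij => h' i j (by omega)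
    · exact fun h' i j hij => h' i j (by omega)
  · have h1 : HodgeIndex H X ℓ b ↔ Q2On (X.dim : ℤ) (homGr H X) (AddMonoidHom.mulLeft ℓ) b
        fun _ _ => True := by
      rw [Q2_iff_HI]
      constructor
      · exact fun h' i m hm x hx hx0 _ hl => h' i m hm x hx hx0 hl
      · exact fun h' i m hm x hx hx0 hl => h' i m hm x hx hx0 trivial hl
    constructor
    · rw [h1, (isPkg h).Q2_iff (isHt h hd hb), van_iff (fun i j => 2 * i ≤ j), Q2_iff_HI]
      apply and_congr
      · constructor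
        · exact fun h' i j hij => h' i j (by exact_mod_cast hij)
        · exact fun h' i j hij => h' i j (by exact_mod_cast hij)
      · have key : ∀ (i : ℕ) (x : C.A X), HomCycle H X i x →
            (pj C π (2 * (i : ℤ) - 1) x = x ↔ (x = 0 ∨ C.act (π (2 * i - 1)) x = x)) := by
          intro i x hx
          rcases Nat.eq_zero_or_pos i with rfl | hi
          · rw [homCycle_codim_zero hx, map_zero]
            exact ⟨fun _ => Or.inl rfl, fun _ => rfl⟩
          · have e : 2 * (i : ℤ) - 1 = ((2 * i - 1 : ℕ) : ℤ) := by omega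
            rw [e, pj_nat]
            constructor
            · exact fun h' => Or.inr h'
            · rintro (rfl | h')
              · exact TheoryData.act_map_zero _ _
              · exact h'
        constructor
        · exact fun h' i m hm x hx hx0 hP hl => h' i m hm x hx hx0
            ((key i x hx).2 (Or.inr hP)) hl
        · exact fun h' i m hm x hx hx0 hP hl => h' i m hm x hx hx0
            (((key i x hx).1 hP).resolve_left hx0) hl
    · intro hQ
      rw [h1] at hQ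
      rw [← Q1_iff_AL, ← nondeg_iff]
      exact (isPkg h).Q1_iff_nondeg (isHt h hd hb) hQ

end Pool.Agent.TH127.LW
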